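import Pool.Agent.Helper61.NW.Goals

set_option autoImplicit false

namespace Pool.Agent.Helper77.NW

open Pool.Agent.Helper52.Wq2 Pool.Agent.Helper61.NW

universe u

variable {Γ : Type u} [Group Γ] {S : Set Γ} {h : Γ → ℤ} {s : Γ} {H n m : ℕ}

theorem h_one (T : Two S h s H n m) : h 1 = 0 := by
  have := T.hom 1 1
  rw [one_mul] at this
  omega

theorem h_inv (T : Two S h s H n m) (g : Γ) : h g⁻¹ = - h g := by
  have := T.hom g g⁻¹
  rw [mul_inv_cancel, h_one T] at this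
  omega

theorem h_pow (T : Two S h s H n m) (k : ℕ) : h (s ^ k) = k * H := by
  induction k with
  | zero => rw [pow_zero, h_one T]; simp
  | succ k ih =>
    rw [pow_succ, T.hom, ih, T.Hs]
    push_cast
    ring

theorem h_zpow (T : Two S h s H n m) (k : ℤ) : h (s ^ k) = k * H := by
  obtain ⟨j, rfl | rfl⟩ := k.eq_nat_or_neg
  · rw [zpow_natCast, h_pow T]
  · rw [zpow_neg, zpow_natCast, h_inv T, h_pow T]
    ring

/-- The position on the line. -/
def pos (h : Γ → ℤ) (H : ℕ) (g : Γ) : ℤ := h g / H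

theorem pos_mul_zpow (T : Two S h s H n m) (g : Γ) (k : ℤ) :
    pos h H (g * s ^ k) = pos h H g + k := by
  have hH : (H : ℤ) ≠ 0 := by
    have := T.Hpos
    omega
  unfold pos
  rw [T.hom, h_zpow T, Int.add_mul_ediv_right _ _ hH]

theorem pos_mul_le (T : Two S h s H n m) (g t : Γ) (ht : t ∈ S) :
    pos h H (g * t) ≤ pos h H g + 1 ∧ pos h H g ≤ pos h H (g * t) + 1 := by
  have hH : (0 : ℤ) < H := by
    have := T.Hpos
    omega
  have hm := abs_le.1 (T.max t ht)
  have e1 : ∀ a : ℤ, (a + H) / H = a / H + 1 := fun a => by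
    have := Int.add_mul_ediv_right a 1 hH.ne'
    rwa [one_mul] at this
  unfold pos
  rw [T.hom]
  constructor
  · rw [← e1]
    exact Int.ediv_le_ediv hH (by omega)
  · rw [← e1]
    exact Int.ediv_le_ediv hH (by omega)

theorem adj_mul (T : Two S h s H n m) (a t : Γ) (ht : t ∈ S) : (cay S).Adj a (a * t) := by
  unfold cay
  rw [SimpleGraph.fromRel_adj]
  refine ⟨fun e => ?_, Or.inl ?_⟩
  · have : t = 1 := by
      have := congrArg (fun x => a⁻¹ * x) e
      simpa using this.symm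
    exact T.gen.2.2 (this ▸ ht)
  · rwa [inv_mul_cancel_left]

/-- The line of `g * s ^ k`. -/
theorem line_zpow (g : Γ) (k : ℤ) :
    ((g * s ^ k : Γ) : Γ ⧸ Subgroup.zpowers s) = (g : Γ ⧸ Subgroup.zpowers s) := by
  rw [eq_comm, QuotientGroup.eq, inv_mul_cancel_left]
  exact Subgroup.zpow_mem_zpowers s k

theorem edge1 (T : Two S h s H n m) (g t : Γ) (ht : t ∈ S) (y : ℤ) : ∃ a b : Γ,
    (a : Γ ⧸ Subgroup.zpowers s) = (g : Γ ⧸ Subgroup.zpowers s) ∧
    (b : Γ ⧸ Subgroup.zpowers s) = ((g * t : Γ) : Γ ⧸ Subgroup.zpowers s) ∧ (cay S).Adj a b ∧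
    (y ≤ pos h H a ∧ pos h H a ≤ y + m) ∧ y ≤ pos h H b ∧ pos h H b ≤ y + m := by
  have hm : (0 : ℤ) < m := by
    have := T.mpos
    omega
  obtain ⟨h1, h2⟩ := pos_mul_le T g t ht
  -- the shift
  set mn := min (pos h H g) (pos h H (g * t)) with hmn
  set k : ℤ := -((mn - y) / m) with hk
  have hd := Int.emod_add_mul_ediv (mn - y) m
  have hr0 := Int.emod_nonneg (mn - y) hm.ne'
  have hr1 := Int.emod_lt_of_pos (mn - y) hm
  have hmk : mn - y + m * k = (mn - y) % m := by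
    rw [hk]
    linarith [hd, mul_neg (m : ℤ) ((mn - y) / m)]
  have hp : ∀ x : Γ, pos h H (x * s ^ ((m : ℤ) * k)) = pos h H x + m * k := fun x =>
    pos_mul_zpow T x _
  have hcomm : Commute t (s ^ ((m : ℤ) * k)) := by
    rw [zpow_mul, zpow_natCast]
    exact Commute.zpow_right (T.cen t) k
  refine ⟨g * s ^ ((m : ℤ) * k), g * t * s ^ ((m : ℤ) * k), line_zpow g _, line_zpow _ _, ?_, ?_, ?_⟩
  · have := adj_mul T (g * s ^ ((m : ℤ) * k)) t ht
    rwa [mul_assoc g, ← hcomm.eq, ← mul_assoc] at this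
  · rw [hp]
    rcases min_cases (pos h H g) (pos h H (g * t)) with ⟨e, _⟩ | ⟨e, _⟩ <;>
      rw [← hmn] at e <;> constructor <;> omega
  · rw [hp]
    rcases min_cases (pos h H g) (pos h H (g * t)) with ⟨e, _⟩ | ⟨e, _⟩ <;>
      rw [← hmn] at e <;> constructor <;> omega

theorem edge (T : Two S h s H n m) (A B : Γ ⧸ Subgroup.zpowers s) (hAB : (Ln S s).Adj A B)
    (y : ℤ) : ∃ a b : Γ, (a : Γ ⧸ Subgroup.zpowers s) = A ∧
    (b : Γ ⧸ Subgroup.zpowers s) = B ∧ (cay S).Adj a b ∧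
    (y ≤ pos h H a ∧ pos h H a ≤ y + m) ∧ y ≤ pos h H b ∧ pos h H b ≤ y + m := by
  unfold Ln at hAB
  rw [SimpleGraph.fromRel_adj] at hAB
  obtain ⟨_, ⟨g, t, ht, rfl, rfl⟩ | ⟨g, t, ht, rfl, rfl⟩⟩ := hAB
  · exact edge1 T g t ht y
  · obtain ⟨a, b, ha, hb, hab, h1, h2⟩ := edge1 T g t ht y
    exact ⟨b, a, hb, ha, hab.symm, h2, h1⟩

theorem exists_pos (T : Two S h s H n m) (A : Γ ⧸ Subgroup.zpowers s) (y : ℤ) :
    ∃ a : Γ, (a : Γ ⧸ Subgroup.zpowers s) = A ∧ pos h H a = y := by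
  obtain ⟨g, rfl⟩ := QuotientGroup.mk_surjective A
  refine ⟨g * s ^ (y - pos h H g), line_zpow g _, ?_⟩
  rw [pos_mul_zpow T]
  ring

theorem conn_block (T : Two S h s H n m) (C : Set (Γ ⧸ Subgroup.zpowers s))
    (hC : Conn (Ln S s) C) (y : ℤ) :
    Conn (cay S) {g : Γ | (g : Γ ⧸ Subgroup.zpowers s) ∈ C ∧ y ≤ pos h H g ∧
      pos h H g ≤ y + m} := by
  constructor
  · obtain ⟨A, hA⟩ := hC.1
    obtain ⟨a, ha, hp⟩ := exists_pos T A y
    exact ⟨a, by rw [ha]; exact hA, by omega, by omega⟩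
  intro A hsub hne hcl
  -- along a line
  have up : ∀ k : ℕ, ∀ a ∈ A, pos h H a + k ≤ y + m → a * s ^ (k : ℤ) ∈ A := by
    intro k
    induction k with
    | zero => intro a ha _; simpa using ha
    | succ k ih =>
      intro a ha hle
      have ha' := hsub ha
      have h1 := ih a ha (by push_cast at hle; omega)
      have hadj := adj_mul T (a * s ^ (k : ℤ)) s T.hs
      have he : a * s ^ (k : ℤ) * s = a * s ^ ((k + 1 : ℕ) : ℤ) := by
        push_cast
        rw [zpow_add_one, mul_assoc]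
      rw [he] at hadj
      refine hcl _ h1 _ ⟨?_, ?_, ?_⟩ hadj
      · rw [line_zpow]; exact ha'.1
      · rw [pos_mul_zpow T]; have := ha'.2.1; push_cast; omega
      · rw [pos_mul_zpow T]; exact hle
  have down : ∀ k : ℕ, ∀ a ∈ A, y ≤ pos h H a - k → a * s ^ (-(k : ℤ)) ∈ A := by
    intro k
    induction k with
    | zero => intro a ha _; simpa using ha
    | succ k ih =>
      intro a ha hle
      have ha' := hsub ha
      have h1 := ih a ha (by push_cast at hle; omega)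
      have hadj := adj_mul T (a * s ^ (-((k + 1 : ℕ) : ℤ))) s T.hs
      have he : a * s ^ (-((k + 1 : ℕ) : ℤ)) * s = a * s ^ (-(k : ℤ)) := by
        rw [mul_assoc, ← zpow_add_one]
        congr 2
        push_cast
        ring
      rw [he] at hadj
      refine hcl _ h1 _ ⟨?_, ?_, ?_⟩ hadj.symm
      · rw [line_zpow]; exact ha'.1
      · rw [pos_mul_zpow T]; omega
      · rw [pos_mul_zpow T]; have := ha'.2.2; push_cast; omega
  have line : ∀ a ∈ A, ∀ b : Γ, (a : Γ ⧸ Subgroup.zpowers s) = (b : Γ ⧸ Subgroup.zpowers s) →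
      y ≤ pos h H b → pos h H b ≤ y + m → b ∈ A := by
    intro a ha b hab hb1 hb2
    obtain ⟨j, hj⟩ := Subgroup.mem_zpowers_iff.1 (QuotientGroup.eq.1 hab)
    have hb : b = a * s ^ j := by rw [hj, mul_inv_cancel_left]
    have hpb := pos_mul_zpow T a j
    rw [← hb] at hpb
    rw [hb]
    obtain ⟨k, rfl | rfl⟩ := j.eq_nat_or_neg
    · exact up k a ha (by omega)
    · exact down k a ha (by omega)
  have hL := hC.2 {X | X ∈ C ∧ ∃ a ∈ A, (a : Γ ⧸ Subgroup.zpowers s) = X}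
    (fun X hX => hX.1) (by
      obtain ⟨a, ha⟩ := hne
      exact ⟨_, (hsub ha).1, a, ha, rfl⟩) (by
      rintro X ⟨_, a, ha, hX⟩ Y hY hXY
      obtain ⟨c, d, hc, hd, hcd, hc', hd'⟩ := edge T X Y hXY y
      have hcA := line a ha c (hX.trans hc.symm) hc'.1 hc'.2
      exact ⟨hY, d, hcl c hcA d ⟨by rw [hd]; exact hY, hd'.1, hd'.2⟩ hcd, hd⟩)
  rintro b ⟨hb, hb1, hb2⟩
  obtain ⟨_, a, ha, hab⟩ := hL hb
  exact line a ha b hab hb1 hb2

theorem conn_single {V : Type*} (G : SimpleGraph V) (v : V) : Conn G {v} := by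
  refine ⟨⟨v, rfl⟩, fun A hA hne _ => ?_⟩
  obtain ⟨a, ha⟩ := hne
  rintro x rfl
  have : a = x := hA ha
  exact this ▸ ha

/-- **STL.** -/
theorem stl : StlStmt.{u} := by
  intro Γ _ S h s H n m T q C B hC hB hBC hadj
  set D : Option (Fin q) → Set (Γ ⧸ Subgroup.zpowers s) := fun o =>
    match o with
    | none => C
    | some i => {B i} with hD
  have hDc : ∀ o, Conn (Ln S s) (D o) := by
    rintro (_ | i)
    · exact hC
    · exact conn_single _ _
  refine ⟨fun v => {g : Γ | (g : Γ ⧸ Subgroup.zpowers s) ∈ D v.2 ∧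
    ((m : ℤ) + 1) * v.1 ≤ pos h H g ∧ pos h H g ≤ ((m : ℤ) + 1) * v.1 + m}, ?_, ?_, ?_⟩
  · intro v
    exact conn_block T (D v.2) (hDc v.2) _
  · rintro ⟨x, o⟩ ⟨x', o'⟩ g ⟨h1, h2, h3⟩ ⟨h1', h2', h3'⟩
    simp only at h1 h2 h3 h1' h2' h3'
    have hx : x = x' := by
      have hm : (0 : ℤ) < (m : ℤ) + 1 := by omega
      have a1 : ((m : ℤ) + 1) * x < ((m : ℤ) + 1) * (x' + 1) := by
        have : ((m : ℤ) + 1) * (x' + 1) = ((m : ℤ) + 1) * x' + m + 1 := by ring
        omega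
      have a2 : ((m : ℤ) + 1) * x' < ((m : ℤ) + 1) * (x + 1) := by
        have : ((m : ℤ) + 1) * (x + 1) = ((m : ℤ) + 1) * x + m + 1 := by ring
        omega
      have b1 := lt_of_mul_lt_mul_left a1 hm.le
      have b2 := lt_of_mul_lt_mul_left a2 hm.le
      omega
    have ho : o = o' := by
      rcases o with _ | i <;> rcases o' with _ | j
      · rfl
      · exact absurd (by rw [← (show _ = B j from h1')]; exact h1) (hBC j)
      · exact absurd (by rw [← (show _ = B i from h1)]; exact h1') (hBC i)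
      · have : B i = B j := (show _ = B i from h1).symm.trans (show _ = B j from h1')
        rw [hB this]
    rw [hx, ho]
  · -- the edges
    have key : ∀ v w : ℤ × Option (Fin q),
        ((v.2 = w.2 ∧ w.1 = v.1 + 1) ∨ (v.1 = w.1 ∧ v.2 = none)) → v ≠ w →
        ∃ a : Γ, ((a : Γ ⧸ Subgroup.zpowers s) ∈ D v.2 ∧
          ((m : ℤ) + 1) * v.1 ≤ pos h H a ∧ pos h H a ≤ ((m : ℤ) + 1) * v.1 + m) ∧
        ∃ b : Γ, ((b : Γ ⧸ Subgroup.zpowers s) ∈ D w.2 ∧
          ((m : ℤ) + 1) * w.1 ≤ pos h H b ∧ pos h H b ≤ ((m : ℤ) + 1) * w.1 + m) ∧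
          (cay S).Adj a b := by
      rintro ⟨x, o⟩ ⟨x', o'⟩ (⟨e1, e2⟩ | ⟨e1, e2⟩) hne
      · simp only at e1 e2
        subst e1 e2
        obtain ⟨A, hA⟩ := (hDc o).1
        obtain ⟨a, ha, hp⟩ := exists_pos T A (((m : ℤ) + 1) * x + m)
        have hp' : pos h H (a * s) = ((m : ℤ) + 1) * (x + 1) := by
          have := pos_mul_zpow T a 1
          rw [zpow_one, hp] at this
          rw [this]
          ring
        have hl : ((a * s : Γ) : Γ ⧸ Subgroup.zpowers s) = A := by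
          have := line_zpow (s := s) a 1
          rw [zpow_one] at this
          rw [this, ha]
        refine ⟨a, ⟨by rw [ha]; exact hA, ?_, ?_⟩, a * s,
          ⟨by rw [hl]; exact hA, ?_, ?_⟩, adj_mul T a s T.hs⟩
        · simp only; omega
        · simp only; omega
        · simp only; omega
        · simp only; omega
      · simp only at e1 e2
        subst e1 e2
        rcases o' with _ | i
        · exact absurd rfl hne
        · obtain ⟨A, hA, hAB⟩ := hadj i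
          obtain ⟨a, b, ha, hb, hab, ha', hb'⟩ := edge T A (B i) hAB (((m : ℤ) + 1) * x)
          exact ⟨a, ⟨by rw [ha]; exact hA, ha'.1, ha'.2⟩, b, ⟨by rw [hb]; exact rfl, hb'.1, hb'.2⟩,
            hab⟩
    intro v w hvw
    unfold StarZ at hvw
    rw [SimpleGraph.fromRel_adj] at hvw
    obtain ⟨hne, h1 | h1⟩ := hvw
    · obtain ⟨a, ha, b, hb, hab⟩ := key v w h1 hne
      exact ⟨a, ha, b, hb, hab⟩
    · obtain ⟨a, ha, b, hb, hab⟩ := key w v h1 hne.symm
      exact ⟨b, hb, a, ha, hab.symm⟩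

end Pool.Agent.Helper77.NW
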