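import Pool.Agent.Helper61.NW.Goals2

set_option autoImplicit false

namespace Pool.Agent.Helper77.NW.LST

open Pool.Agent.Helper52.Wq2 Pool.Agent.Helper61.NW

variable {n m : ℕ} {G : SimpleGraph (ℤ × Fin n)}

theorem per_int (L : Lsys n m G) (a b : ℤ) (i j : Fin n) (hab : G.Adj (a, i) (b, j)) (k : ℤ) :
    G.Adj (a + m * k, i) (b + m * k, j) := by
  obtain ⟨k, rfl | rfl⟩ := k.eq_nat_or_neg
  · induction k with
    | zero => simpa using hab
    | succ k ih =>
      have := (L.per _ _ _ _).1 ih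
      have e : ∀ c : ℤ, c + m * (k : ℤ) + m = c + m * ((k + 1 : ℕ) : ℤ) := fun c => by
        push_cast; ring
      rwa [e, e] at this
  · induction k with
    | zero => simpa using hab
    | succ k ih =>
      refine (L.per _ _ _ _).2 ?_
      have e : ∀ c : ℤ, c + m * -((k + 1 : ℕ) : ℤ) + m = c + m * -(k : ℤ) := fun c => by
        push_cast; ring
      rwa [e, e]

theorem edge1 (L : Lsys n m G) (a b : ℤ) (i j : Fin n) (hab : G.Adj (a, i) (b, j)) (y : ℤ) :
    ∃ a b : ℤ, G.Adj (a, i) (b, j) ∧ (y ≤ a ∧ a ≤ y + m) ∧ y ≤ b ∧ b ≤ y + m := by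
  have hm : (0 : ℤ) < m := by
    have := L.mpos
    omega
  have hn := abs_le.1 (L.near a b i j hab)
  set mn := min a b with hmn
  set k : ℤ := -((mn - y) / m) with hk
  have hd := Int.emod_add_mul_ediv (mn - y) m
  have hr0 := Int.emod_nonneg (mn - y) hm.ne'
  have hr1 := Int.emod_lt_of_pos (mn - y) hm
  have hmk : mn - y + m * k = (mn - y) % m := by
    rw [hk]
    linarith [hd, mul_neg (m : ℤ) ((mn - y) / m)]
  refine ⟨a + m * k, b + m * k, per_int L a b i j hab k, ?_, ?_⟩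
  · rcases min_cases a b with ⟨e, _⟩ | ⟨e, _⟩ <;> rw [← hmn] at e <;> constructor <;> omega
  · rcases min_cases a b with ⟨e, _⟩ | ⟨e, _⟩ <;> rw [← hmn] at e <;> constructor <;> omega

theorem edge (L : Lsys n m G) (i j : Fin n) (hij : (Lg G).Adj i j) (y : ℤ) :
    ∃ a b : ℤ, G.Adj (a, i) (b, j) ∧ (y ≤ a ∧ a ≤ y + m) ∧ y ≤ b ∧ b ≤ y + m := by
  unfold Lg at hij
  rw [SimpleGraph.fromRel_adj] at hij
  obtain ⟨_, ⟨a, b, hab⟩ | ⟨a, b, hab⟩⟩ := hij
  · exact edge1 L a b i j hab y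
  · exact edge1 L b a i j hab.symm y

theorem conn_block (L : Lsys n m G) (C : Set (Fin n)) (hC : Conn (Lg G) C) (y : ℤ) :
    Conn G {v : ℤ × Fin n | v.2 ∈ C ∧ y ≤ v.1 ∧ v.1 ≤ y + m} := by
  constructor
  · obtain ⟨i, hi⟩ := hC.1
    exact ⟨(y, i), hi, le_rfl, by simp⟩
  intro A hsub hne hcl
  have up : ∀ (k : ℕ) (a : ℤ) (i : Fin n), (a, i) ∈ A → a + k ≤ y + m → (a + k, i) ∈ A := by
    intro k
    induction k with
    | zero => intro a i ha _; simpa using ha
    | succ k ih =>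
      intro a i ha hle
      have ha' := hsub ha
      have h2 : y ≤ a := ha'.2.1
      have h1 := ih a i ha (by push_cast at hle; omega)
      have hadj := L.step (a + k) i
      have he : a + (k : ℤ) + 1 = a + ((k + 1 : ℕ) : ℤ) := by push_cast; ring
      rw [he] at hadj
      exact hcl _ h1 _ ⟨ha'.1, by simp only; omega, hle⟩ hadj
  have down : ∀ (k : ℕ) (a : ℤ) (i : Fin n), (a, i) ∈ A → y ≤ a - k → (a - k, i) ∈ A := by
    intro k
    induction k with
    | zero => intro a i ha _; simpa using ha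
    | succ k ih =>
      intro a i ha hle
      have ha' := hsub ha
      have h2 : a ≤ y + m := ha'.2.2
      have h1 := ih a i ha (by push_cast at hle; omega)
      have hadj := L.step (a - ((k + 1 : ℕ) : ℤ)) i
      have he : a - ((k + 1 : ℕ) : ℤ) + 1 = a - (k : ℤ) := by push_cast; ring
      rw [he] at hadj
      exact hcl _ h1 _ ⟨ha'.1, hle, by simp only; omega⟩ hadj.symm
  have line : ∀ (a b : ℤ) (i : Fin n), (a, i) ∈ A → y ≤ b → b ≤ y + m → (b, i) ∈ A := by
    intro a b i ha hb1 hb2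
    rcases le_total a b with hab | hab
    · have := up (b - a).toNat a i ha (by omega)
      have e : a + ((b - a).toNat : ℤ) = b := by omega
      rwa [e] at this
    · have := down (a - b).toNat a i ha (by omega)
      have e : a - ((a - b).toNat : ℤ) = b := by omega
      rwa [e] at this
  have hL := hC.2 {i | i ∈ C ∧ ∃ a : ℤ, (a, i) ∈ A} (fun i hi => hi.1) (by
      obtain ⟨⟨a, i⟩, ha⟩ := hne
      exact ⟨i, (hsub ha).1, a, ha⟩) (by
      rintro i ⟨_, a, ha⟩ j hj hij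
      obtain ⟨c, d, hcd, hc', hd'⟩ := edge L i j hij y
      have hcA := line a c i ha hc'.1 hc'.2
      exact ⟨hj, d, hcl _ hcA (d, j) ⟨hj, hd'.1, hd'.2⟩ hcd⟩)
  rintro ⟨b, i⟩ ⟨hb, hb1, hb2⟩
  obtain ⟨_, a, ha⟩ := hL hb
  exact line a b i ha hb1 hb2

theorem conn_single {V : Type*} (G : SimpleGraph V) (v : V) : Conn G {v} := by
  refine ⟨⟨v, rfl⟩, fun A hA hne _ => ?_⟩
  obtain ⟨a, ha⟩ := hne
  rintro x rfl
  have : a = x := hA ha
  exact this ▸ ha

end Pool.Agent.Helper77.NW.LST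

namespace Pool.Agent.Helper77.NW

open Pool.Agent.Helper52.Wq2 Pool.Agent.Helper61.NW

/-- **LST.** -/
theorem lst : LstStmt := by
  intro n m G L q C B hC hB hBC hadj
  set D : Option (Fin q) → Set (Fin n) := fun o =>
    match o with
    | none => C
    | some i => {B i} with hD
  have hDc : ∀ o, Conn (Lg G) (D o) := by
    rintro (_ | i)
    · exact hC
    · exact LST.conn_single _ _
  refine ⟨fun v => {g : ℤ × Fin n | g.2 ∈ D v.2 ∧
    ((m : ℤ) + 1) * v.1 ≤ g.1 ∧ g.1 ≤ ((m : ℤ) + 1) * v.1 + m}, ?_, ?_, ?_⟩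
  · intro v
    exact LST.conn_block L (D v.2) (hDc v.2) _
  · rintro ⟨x, o⟩ ⟨x', o'⟩ ⟨g, c⟩ ⟨h1, h2, h3⟩ ⟨h1', h2', h3'⟩
    simp only at h1 h2 h3 h1' h2' h3'
    have hx : x = x' := by
      have hm : (0 : ℤ) < (m : ℤ) + 1 := by omega
      have a1 : ((m : ℤ) + 1) * x < ((m : ℤ) + 1) * (x' + 1) := by
        have : ((m : ℤ) + 1) * (x' + 1) = ((m : ℤ) + 1) * x' + m + 1 := by ring
        omega
      have a2 : ((m : ℤ) + 1) * x' < ((m : ℤ) + 1) * (x + 1) := by
        have : ((m : ℤ) + 1) * (x + 1) = ((m : ℤ) + 1) * x + m + 1 := by ring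
        omega
      have b1 := lt_of_mul_lt_mul_left a1 hm.le
      have b2 := lt_of_mul_lt_mul_left a2 hm.le
      omega
    have ho : o = o' := by
      rcases o with _ | i <;> rcases o' with _ | j
      · rfl
      · exact absurd (by rw [← (show c = B j from h1')]; exact h1) (hBC j)
      · exact absurd (by rw [← (show c = B i from h1)]; exact h1') (hBC i)
      · have : B i = B j := (show c = B i from h1).symm.trans (show c = B j from h1')
        rw [hB this]
    rw [hx, ho]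
  · have key : ∀ v w : ℤ × Option (Fin q),
        ((v.2 = w.2 ∧ w.1 = v.1 + 1) ∨ (v.1 = w.1 ∧ v.2 = none)) → v ≠ w →
        ∃ a : ℤ × Fin n, (a.2 ∈ D v.2 ∧
          ((m : ℤ) + 1) * v.1 ≤ a.1 ∧ a.1 ≤ ((m : ℤ) + 1) * v.1 + m) ∧
        ∃ b : ℤ × Fin n, (b.2 ∈ D w.2 ∧
          ((m : ℤ) + 1) * w.1 ≤ b.1 ∧ b.1 ≤ ((m : ℤ) + 1) * w.1 + m) ∧ G.Adj a b := by
      rintro ⟨x, o⟩ ⟨x', o'⟩ (⟨e1, e2⟩ | ⟨e1, e2⟩) hne
      · simp only at e1 e2
        subst e1 e2
        obtain ⟨i, hi⟩ := (hDc o).1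
        have hp : ((m : ℤ) + 1) * (x + 1) = ((m : ℤ) + 1) * x + m + 1 := by ring
        refine ⟨(((m : ℤ) + 1) * x + m, i), ⟨hi, ?_, ?_⟩, (((m : ℤ) + 1) * x + m + 1, i),
          ⟨hi, ?_, ?_⟩, L.step _ _⟩
        · simp only; omega
        · simp only; omega
        · simp only; omega
        · simp only; omega
      · simp only at e1 e2
        subst e1 e2
        rcases o' with _ | i
        · exact absurd rfl hne
        · obtain ⟨A, hA, hAB⟩ := hadj i
          obtain ⟨a, b, hab, ha', hb'⟩ := LST.edge L A (B i) hAB (((m : ℤ) + 1) * x)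
          exact ⟨(a, A), ⟨hA, ha'.1, ha'.2⟩, (b, B i), ⟨rfl, hb'.1, hb'.2⟩, hab⟩
    intro v w hvw
    unfold StarZ at hvw
    rw [SimpleGraph.fromRel_adj] at hvw
    obtain ⟨hne, h1 | h1⟩ := hvw
    · obtain ⟨a, ha, b, hb, hab⟩ := key v w h1 hne
      exact ⟨a, ha, b, hb, hab⟩
    · obtain ⟨a, ha, b, hb, hab⟩ := key w v h1 hne.symm
      exact ⟨b, hb, a, ha, hab.symm⟩

end Pool.Agent.Helper77.NW
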